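import Pool.Agent.Helper533.BL.Chk

set_option autoImplicit false
set_option maxRecDepth 100000
open Finset

namespace Pool.Agent.Helper533.BL

theorem nsum_eq (n : ℕ) (f : ℕ → ℕ) : nsum n f = ∑ k ∈ range n, f k := by
  induction n with
  | zero => rfl
  | succ n ih => rw [sum_range_succ, ← ih]; rfl

theorem nall_true {n : ℕ} {f : ℕ → Bool} (h : nall n f = true) : ∀ k < n, f k = true := by
  induction n with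
  | zero => intro k hk; omega
  | succ n ih =>
    have h' : (nall n f && f n) = true := h
    rw [Bool.and_eq_true] at h'
    intro k hk
    rcases Nat.lt_succ_iff_lt_or_eq.mp hk with hk | rfl
    · exact ih h'.1 k hk
    · exact h'.2

/-- the values of `[χ a ≠ χ b]` for the six pairs of four points -/
def Qr (p q r t u v : ℕ) : Prop :=
  (p = 0 ∧ q = 0 ∧ r = 0 ∧ t = 0 ∧ u = 0 ∧ v = 0) ∨ (p = 0 ∧ q = 0 ∧ r = 1 ∧ t = 0 ∧ u = 1 ∧ v = 1) ∨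
  (p = 0 ∧ q = 1 ∧ r = 0 ∧ t = 1 ∧ u = 0 ∧ v = 1) ∨ (p = 0 ∧ q = 1 ∧ r = 1 ∧ t = 1 ∧ u = 1 ∧ v = 0) ∨
  (p = 1 ∧ q = 0 ∧ r = 0 ∧ t = 1 ∧ u = 1 ∧ v = 0) ∨ (p = 1 ∧ q = 0 ∧ r = 1 ∧ t = 1 ∧ u = 0 ∧ v = 1) ∨
  (p = 1 ∧ q = 1 ∧ r = 0 ∧ t = 0 ∧ u = 1 ∧ v = 1) ∨ (p = 1 ∧ q = 1 ∧ r = 1 ∧ t = 0 ∧ u = 0 ∧ v = 0)

theorem A8_true {f : ℕ → ℕ → ℕ → ℕ → ℕ → ℕ → Bool} (h : A8 f = true) {p q r t u v : ℕ}
    (hd : Qr p q r t u v) : f p q r t u v = true := by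
  have h' : (f 0 0 0 0 0 0 && (f 0 0 1 0 1 1 && (f 0 1 0 1 0 1 && (f 0 1 1 1 1 0 &&
    (f 1 0 0 1 1 0 && (f 1 0 1 1 0 1 && (f 1 1 0 0 1 1 && f 1 1 1 0 0 0))))))) = true := h
  simp only [Bool.and_eq_true] at h'
  obtain ⟨a0, a1, a2, a3, a4, a5, a6, a7⟩ := h'
  rcases hd with ⟨rfl, rfl, rfl, rfl, rfl, rfl⟩ | ⟨rfl, rfl, rfl, rfl, rfl, rfl⟩ |
    ⟨rfl, rfl, rfl, rfl, rfl, rfl⟩ | ⟨rfl, rfl, rfl, rfl, rfl, rfl⟩ |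
    ⟨rfl, rfl, rfl, rfl, rfl, rfl⟩ | ⟨rfl, rfl, rfl, rfl, rfl, rfl⟩ |
    ⟨rfl, rfl, rfl, rfl, rfl, rfl⟩ | ⟨rfl, rfl, rfl, rfl, rfl, rfl⟩
  exacts [a0, a1, a2, a3, a4, a5, a6, a7]

theorem leaf_le (s012 s013 s014 s023 s024 s034 s102 s103 s104 s123 s124 s134 s201 s203 s204 s213 s214 s234 s301 s302 s304 s312 s314 s324 s401 s402 s403 s412 s413 s423 : ℕ) (h0 : Qr s012 s013 s014 s023 s024 s034) (h1 : Qr s102 s103 s104 s123 s124 s134) (h2 : Qr s201 s203 s204 s213 s214 s234) (h3 : Qr s301 s302 s304 s312 s314 s324) (h4 : Qr s401 s402 s403 s412 s413 s423) :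
    leaf s012 s013 s014 s023 s024 s034 s102 s103 s104 s123 s124 s134 s201 s203 s204 s213 s214 s234 s301 s302 s304 s312 s314 s324 s401 s402 s403 s412 s413 s423 ≤ 616779939901236 := by
  have hc : chk s012 s013 s014 s023 s024 s034 = true := by
    rcases h0 with ⟨rfl, rfl, rfl, rfl, rfl, rfl⟩ | ⟨rfl, rfl, rfl, rfl, rfl, rfl⟩ |
      ⟨rfl, rfl, rfl, rfl, rfl, rfl⟩ | ⟨rfl, rfl, rfl, rfl, rfl, rfl⟩ |
      ⟨rfl, rfl, rfl, rfl, rfl, rfl⟩ | ⟨rfl, rfl, rfl, rfl, rfl, rfl⟩ |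
      ⟨rfl, rfl, rfl, rfl, rfl, rfl⟩ | ⟨rfl, rfl, rfl, rfl, rfl, rfl⟩
    exacts [ck0, ck1, ck2, ck3, ck4, ck5, ck6, ck7]
  exact Nat.le_of_ble_eq_true (A8_true (A8_true (A8_true (A8_true hc h1) h2) h3) h4)

theorem g3_all (c i j : ℕ) (hc : c < 8) (hi : i < 32) (hj : j < 32) : g3 c i j = true := by
  have h : chk3 c = true := by
    interval_cases c
    exacts [cg3_0, cg3_1, cg3_2, cg3_3, cg3_4, cg3_5, cg3_6, cg3_7]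
  exact nall_true (nall_true h i hi) j hj

theorem g1_all (i j : ℕ) (hi : i < 8) (hj : j < 8) : g1 i j = true :=
  nall_true (nall_true cg1 i hi) j hj

theorem expand (s : Finset ℕ) (u v : ℕ → ℕ) (B : ℤ) :
    ∑ k ∈ s, ((u k : ℤ) - B) * ((v k : ℤ) - B) =
      ∑ k ∈ s, (u k : ℤ) * (v k : ℤ) - B * ∑ k ∈ s, ((u k : ℤ) + (v k : ℤ)) + s.card * B ^ 2 := by
  rw [mul_sum, ← sum_sub_distrib]
  have : (s.card : ℤ) * B ^ 2 = ∑ k ∈ s, B ^ 2 := by simp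
  rw [this, ← sum_add_distrib]
  exact sum_congr rfl fun k _ => by ring

theorem q3_eq (c i j : ℕ) (hc : c < 8) (hi : i < 32) (hj : j < 32) :
    (q3 c i j : ℤ) = ∑ k ∈ range 32, ((l3 c i k : ℤ) - 2097152) * ((l3 c j k : ℤ) - 2097152)
      + 8796093022208 + 412316860416 * (pc c : ℤ) := by
  have h := Nat.eq_of_beq_eq_true (g3_all c i j hc hi hj)
  rw [nsum_eq, nsum_eq] at h
  have h2 : ((∑ k ∈ range 32, (l3 c i k * l3 c j k) + (149533581377536 + 412316860416 * pc c) : ℕ) : ℤ)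
      = ((q3 c i j + 2097152 * ∑ k ∈ range 32, (l3 c i k + l3 c j k) : ℕ) : ℤ) := congrArg _ h
  push_cast at h2
  rw [expand (range 32) (fun k => l3 c i k) (fun k => l3 c j k) 2097152, card_range]
  push_cast
  linarith

theorem q1_eq (i j : ℕ) (hi : i < 8) (hj : j < 8) :
    (q1 i j : ℤ) = ∑ k ∈ range 6, ((l1 i k : ℤ) - 2097152) * ((l1 j k : ℤ) - 2097152) + 8796093022208 := by
  have h := Nat.eq_of_beq_eq_true (g1_all i j hi hj)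
  rw [nsum_eq, nsum_eq] at h
  have h2 : ((∑ k ∈ range 6, (l1 i k * l1 j k) + 35184372088832 : ℕ) : ℤ)
      = ((q1 i j + 2097152 * ∑ k ∈ range 6, (l1 i k + l1 j k) : ℕ) : ℤ) := congrArg _ h
  push_cast at h2
  rw [expand (range 6) (fun k => l1 i k) (fun k => l1 j k) 2097152, card_range]
  push_cast
  linarith

variable {V : Type} (χ : V → V → Bool)

/-- `1` if the colouring attached to `a` separates `b` and `c` -/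
def sg (a b c : V) : ℕ := if χ a b = χ a c then 0 else 1

theorem sg_comm (a b c : V) : sg χ a b c = sg χ a c b := by
  unfold sg
  by_cases h : χ a b = χ a c
  · rw [if_pos h, if_pos h.symm]
  · rw [if_neg h, if_neg (fun h' => h h'.symm)]

theorem sg_lt (a b c : V) : sg χ a b c < 2 := by
  unfold sg
  split_ifs <;> norm_num

theorem qr_sg (x a b c d : V) : Qr (sg χ x a b) (sg χ x a c) (sg χ x a d) (sg χ x b c) (sg χ x b d)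
    (sg χ x c d) := by
  unfold sg Qr
  cases χ x a <;> cases χ x b <;> cases χ x c <;> cases χ x d <;> simp

def F3 (a b c d e : V) : ℕ :=
  q3 (c3 (sg χ a b c) (sg χ b a c) (sg χ c a b))
    (c5 (sg χ a b d) (sg χ b a d) (sg χ c a d) (sg χ d a b) (sg χ d a c))
    (c5 (sg χ a b e) (sg χ b a e) (sg χ c a e) (sg χ e a b) (sg χ e a c))
def F1 (a b c d e : V) : ℕ :=
  q1 (c3 (sg χ a b c) (sg χ b a c) (sg χ c a b)) (c3 (sg χ a d e) (sg χ d a e) (sg χ e a d))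

theorem pointwise (x : Fin 5 → V) :
    ((F3 χ (x 0) (x 1) (x 2) (x 3) (x 4) +
      (F3 χ (x 0) (x 1) (x 3) (x 2) (x 4) +
      (F3 χ (x 0) (x 1) (x 4) (x 2) (x 3) +
      (F3 χ (x 0) (x 2) (x 3) (x 1) (x 4) +
      (F3 χ (x 0) (x 2) (x 4) (x 1) (x 3) +
      (F3 χ (x 0) (x 3) (x 4) (x 1) (x 2) +
      (F3 χ (x 1) (x 2) (x 3) (x 0) (x 4) +
      (F3 χ (x 1) (x 2) (x 4) (x 0) (x 3) +
      (F3 χ (x 1) (x 3) (x 4) (x 0) (x 2) +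
      F3 χ (x 2) (x 3) (x 4) (x 0) (x 1))))))))))) + 4 * ((F1 χ (x 0) (x 1) (x 2) (x 3) (x 4) +
      (F1 χ (x 0) (x 1) (x 3) (x 2) (x 4) +
      (F1 χ (x 0) (x 1) (x 4) (x 2) (x 3) +
      (F1 χ (x 1) (x 0) (x 2) (x 3) (x 4) +
      (F1 χ (x 1) (x 0) (x 3) (x 2) (x 4) +
      (F1 χ (x 1) (x 0) (x 4) (x 2) (x 3) +
      (F1 χ (x 2) (x 0) (x 1) (x 3) (x 4) +
      (F1 χ (x 2) (x 0) (x 3) (x 1) (x 4) +
      (F1 χ (x 2) (x 0) (x 4) (x 1) (x 3) +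
      (F1 χ (x 3) (x 0) (x 1) (x 2) (x 4) +
      (F1 χ (x 3) (x 0) (x 2) (x 1) (x 4) +
      (F1 χ (x 3) (x 0) (x 4) (x 1) (x 2) +
      (F1 χ (x 4) (x 0) (x 1) (x 2) (x 3) +
      (F1 χ (x 4) (x 0) (x 2) (x 1) (x 3) +
      F1 χ (x 4) (x 0) (x 3) (x 1) (x 2)))))))))))))))) ≤ 616779939901236 := by
  have H := leaf_le (sg χ (x 0) (x 1) (x 2)) (sg χ (x 0) (x 1) (x 3)) (sg χ (x 0) (x 1) (x 4)) (sg χ (x 0) (x 2) (x 3)) (sg χ (x 0) (x 2) (x 4)) (sg χ (x 0) (x 3) (x 4)) (sg χ (x 1) (x 0) (x 2)) (sg χ (x 1) (x 0) (x 3)) (sg χ (x 1) (x 0) (x 4)) (sg χ (x 1) (x 2) (x 3)) (sg χ (x 1) (x 2) (x 4)) (sg χ (x 1) (x 3) (x 4)) (sg χ (x 2) (x 0) (x 1)) (sg χ (x 2) (x 0) (x 3)) (sg χ (x 2) (x 0) (x 4)) (sg χ (x 2) (x 1) (x 3)) (sg χ (x 2) (x 1) (x 4)) (sg χ (x 2) (x 3) (x 4)) (sg χ (x 3) (x 0) (x 1)) (sg χ (x 3) (x 0)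 (x 2)) (sg χ (x 3) (x 0) (x 4)) (sg χ (x 3) (x 1) (x 2)) (sg χ (x 3) (x 1) (x 4)) (sg χ (x 3) (x 2) (x 4)) (sg χ (x 4) (x 0) (x 1)) (sg χ (x 4) (x 0) (x 2)) (sg χ (x 4) (x 0) (x 3)) (sg χ (x 4) (x 1) (x 2)) (sg χ (x 4) (x 1) (x 3)) (sg χ (x 4) (x 2) (x 3))
    (qr_sg χ (x 0) (x 1) (x 2) (x 3) (x 4))
    (qr_sg χ (x 1) (x 0) (x 2) (x 3) (x 4))
    (qr_sg χ (x 2) (x 0) (x 1) (x 3) (x 4))
    (qr_sg χ (x 3) (x 0) (x 1) (x 2) (x 4))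
    (qr_sg χ (x 4) (x 0) (x 1) (x 2) (x 3))
  simp only [F3, F1, sg_comm χ (x 0) (x 2) (x 1), sg_comm χ (x 0) (x 3) (x 1), sg_comm χ (x 0) (x 4) (x 1), sg_comm χ (x 0) (x 3) (x 2), sg_comm χ (x 0) (x 4) (x 2), sg_comm χ (x 0) (x 4) (x 3), sg_comm χ (x 1) (x 2) (x 0), sg_comm χ (x 1) (x 3) (x 0), sg_comm χ (x 1) (x 4) (x 0), sg_comm χ (x 1) (x 3) (x 2), sg_comm χ (x 1) (x 4) (x 2), sg_comm χ (x 1) (x 4) (x 3), sg_comm χ (x 2) (x 1) (x 0), sg_comm χ (x 2) (x 3) (x 0), sg_comm χ (x 2) (x 4) (x 0), sg_comm χ (x 2) (x 3) (x 1), sg_comm χ (x 2) (x 4) (x 1), sg_comm χ (x 2) (x 4) (x 3), sg_comm χ (x 3) (x 1) (x 0), sg_comm χ (x 3) (x 2) (x 0), sg_comm χ (x 3) (x 4) (x 0), sg_comm χ (x 3) (x 2) (x 1), sg_comm χ (x 3) (x 4) (x 1), sg_comm χ (x 3) (x 4) (x 2), sg_comm χ (x 4) (x 1) (x 0), sg_comm χ (x 4) (x 2)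 (x 0), sg_comm χ (x 4) (x 3) (x 0), sg_comm χ (x 4) (x 2) (x 1), sg_comm χ (x 4) (x 3) (x 1), sg_comm χ (x 4) (x 3) (x 2)]
  exact H

theorem psum [Fintype V] (F : V → V → V → V → V → ℕ) (g : Fin 5 → Fin 5)
    (hg : Function.Bijective g) :
    ∑ x : Fin 5 → V, F (x (g 0)) (x (g 1)) (x (g 2)) (x (g 3)) (x (g 4))
      = ∑ x : Fin 5 → V, F (x 0) (x 1) (x 2) (x 3) (x 4) :=
  Equiv.sum_comp (Equiv.arrowCongr (Equiv.ofBijective g hg).symm (Equiv.refl V))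
    (fun x => F (x 0) (x 1) (x 2) (x 3) (x 4))

theorem total [Fintype V] :
    10 * ∑ x : Fin 5 → V, F3 χ (x 0) (x 1) (x 2) (x 3) (x 4)
      + 60 * ∑ x : Fin 5 → V, F1 χ (x 0) (x 1) (x 2) (x 3) (x 4)
      ≤ 616779939901236 * Fintype.card V ^ 5 := by
  have f3_0 : ∑ x : Fin 5 → V, F3 χ (x 0) (x 1) (x 2) (x 3) (x 4) = ∑ x : Fin 5 → V, F3 χ (x 0) (x 1) (x 2) (x 3) (x 4) :=
    psum (F3 χ) ![0, 1, 2, 3, 4] (by decide)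
  have f3_1 : ∑ x : Fin 5 → V, F3 χ (x 0) (x 1) (x 3) (x 2) (x 4) = ∑ x : Fin 5 → V, F3 χ (x 0) (x 1) (x 2) (x 3) (x 4) :=
    psum (F3 χ) ![0, 1, 3, 2, 4] (by decide)
  have f3_2 : ∑ x : Fin 5 → V, F3 χ (x 0) (x 1) (x 4) (x 2) (x 3) = ∑ x : Fin 5 → V, F3 χ (x 0) (x 1) (x 2) (x 3) (x 4) :=
    psum (F3 χ) ![0, 1, 4, 2, 3] (by decide)
  have f3_3 : ∑ x : Fin 5 → V, F3 χ (x 0) (x 2) (x 3) (x 1) (x 4) = ∑ x : Fin 5 → V, F3 χ (x 0) (x 1) (x 2) (x 3) (x 4) :=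
    psum (F3 χ) ![0, 2, 3, 1, 4] (by decide)
  have f3_4 : ∑ x : Fin 5 → V, F3 χ (x 0) (x 2) (x 4) (x 1) (x 3) = ∑ x : Fin 5 → V, F3 χ (x 0) (x 1) (x 2) (x 3) (x 4) :=
    psum (F3 χ) ![0, 2, 4, 1, 3] (by decide)
  have f3_5 : ∑ x : Fin 5 → V, F3 χ (x 0) (x 3) (x 4) (x 1) (x 2) = ∑ x : Fin 5 → V, F3 χ (x 0) (x 1) (x 2) (x 3) (x 4) :=
    psum (F3 χ) ![0, 3, 4, 1, 2] (by decide)
  have f3_6 : ∑ x : Fin 5 → V, F3 χ (x 1) (x 2) (x 3) (x 0) (x 4) = ∑ x : Fin 5 → V, F3 χ (x 0) (x 1) (x 2) (x 3) (x 4) :=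
    psum (F3 χ) ![1, 2, 3, 0, 4] (by decide)
  have f3_7 : ∑ x : Fin 5 → V, F3 χ (x 1) (x 2) (x 4) (x 0) (x 3) = ∑ x : Fin 5 → V, F3 χ (x 0) (x 1) (x 2) (x 3) (x 4) :=
    psum (F3 χ) ![1, 2, 4, 0, 3] (by decide)
  have f3_8 : ∑ x : Fin 5 → V, F3 χ (x 1) (x 3) (x 4) (x 0) (x 2) = ∑ x : Fin 5 → V, F3 χ (x 0) (x 1) (x 2) (x 3) (x 4) :=
    psum (F3 χ) ![1, 3, 4, 0, 2] (by decide)
  have f3_9 : ∑ x : Fin 5 → V, F3 χ (x 2) (x 3) (x 4) (x 0) (x 1) = ∑ x : Fin 5 → V, F3 χ (x 0) (x 1) (x 2) (x 3) (x 4) :=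
    psum (F3 χ) ![2, 3, 4, 0, 1] (by decide)
  have f1_0 : ∑ x : Fin 5 → V, F1 χ (x 0) (x 1) (x 2) (x 3) (x 4) = ∑ x : Fin 5 → V, F1 χ (x 0) (x 1) (x 2) (x 3) (x 4) :=
    psum (F1 χ) ![0, 1, 2, 3, 4] (by decide)
  have f1_1 : ∑ x : Fin 5 → V, F1 χ (x 0) (x 1) (x 3) (x 2) (x 4) = ∑ x : Fin 5 → V, F1 χ (x 0) (x 1) (x 2) (x 3) (x 4) :=
    psum (F1 χ) ![0, 1, 3, 2, 4] (by decide)
  have f1_2 : ∑ x : Fin 5 → V, F1 χ (x 0) (x 1) (x 4) (x 2) (x 3) = ∑ x : Fin 5 → V, F1 χ (x 0) (x 1) (x 2) (x 3) (x 4) :=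
    psum (F1 χ) ![0, 1, 4, 2, 3] (by decide)
  have f1_3 : ∑ x : Fin 5 → V, F1 χ (x 1) (x 0) (x 2) (x 3) (x 4) = ∑ x : Fin 5 → V, F1 χ (x 0) (x 1) (x 2) (x 3) (x 4) :=
    psum (F1 χ) ![1, 0, 2, 3, 4] (by decide)
  have f1_4 : ∑ x : Fin 5 → V, F1 χ (x 1) (x 0) (x 3) (x 2) (x 4) = ∑ x : Fin 5 → V, F1 χ (x 0) (x 1) (x 2) (x 3) (x 4) :=
    psum (F1 χ) ![1, 0, 3, 2, 4] (by decide)
  have f1_5 : ∑ x : Fin 5 → V, F1 χ (x 1) (x 0) (x 4) (x 2) (x 3) = ∑ x : Fin 5 → V, F1 χ (x 0) (x 1) (x 2) (x 3) (x 4) :=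
    psum (F1 χ) ![1, 0, 4, 2, 3] (by decide)
  have f1_6 : ∑ x : Fin 5 → V, F1 χ (x 2) (x 0) (x 1) (x 3) (x 4) = ∑ x : Fin 5 → V, F1 χ (x 0) (x 1) (x 2) (x 3) (x 4) :=
    psum (F1 χ) ![2, 0, 1, 3, 4] (by decide)
  have f1_7 : ∑ x : Fin 5 → V, F1 χ (x 2) (x 0) (x 3) (x 1) (x 4) = ∑ x : Fin 5 → V, F1 χ (x 0) (x 1) (x 2) (x 3) (x 4) :=
    psum (F1 χ) ![2, 0, 3, 1, 4] (by decide)
  have f1_8 : ∑ x : Fin 5 → V, F1 χ (x 2) (x 0) (x 4) (x 1) (x 3) = ∑ x : Fin 5 → V, F1 χ (x 0) (x 1) (x 2) (x 3) (x 4) :=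
    psum (F1 χ) ![2, 0, 4, 1, 3] (by decide)
  have f1_9 : ∑ x : Fin 5 → V, F1 χ (x 3) (x 0) (x 1) (x 2) (x 4) = ∑ x : Fin 5 → V, F1 χ (x 0) (x 1) (x 2) (x 3) (x 4) :=
    psum (F1 χ) ![3, 0, 1, 2, 4] (by decide)
  have f1_10 : ∑ x : Fin 5 → V, F1 χ (x 3) (x 0) (x 2) (x 1) (x 4) = ∑ x : Fin 5 → V, F1 χ (x 0) (x 1) (x 2) (x 3) (x 4) :=
    psum (F1 χ) ![3, 0, 2, 1, 4] (by decide)
  have f1_11 : ∑ x : Fin 5 → V, F1 χ (x 3) (x 0) (x 4) (x 1) (x 2) = ∑ x : Fin 5 → V, F1 χ (x 0) (x 1) (x 2) (x 3) (x 4) :=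
    psum (F1 χ) ![3, 0, 4, 1, 2] (by decide)
  have f1_12 : ∑ x : Fin 5 → V, F1 χ (x 4) (x 0) (x 1) (x 2) (x 3) = ∑ x : Fin 5 → V, F1 χ (x 0) (x 1) (x 2) (x 3) (x 4) :=
    psum (F1 χ) ![4, 0, 1, 2, 3] (by decide)
  have f1_13 : ∑ x : Fin 5 → V, F1 χ (x 4) (x 0) (x 2) (x 1) (x 3) = ∑ x : Fin 5 → V, F1 χ (x 0) (x 1) (x 2) (x 3) (x 4) :=
    psum (F1 χ) ![4, 0, 2, 1, 3] (by decide)
  have f1_14 : ∑ x : Fin 5 → V, F1 χ (x 4) (x 0) (x 3) (x 1) (x 2) = ∑ x : Fin 5 → V, F1 χ (x 0) (x 1) (x 2) (x 3) (x 4) :=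
    psum (F1 χ) ![4, 0, 3, 1, 2] (by decide)
  have key := Finset.sum_le_sum (s := Finset.univ) (fun x _ => pointwise χ x)
  simp only [Finset.sum_add_distrib, ← Finset.mul_sum, Finset.sum_const, Finset.card_univ,
    Fintype.card_fun, Fintype.card_fin, smul_eq_mul] at key
  rw [f3_0, f3_1, f3_2, f3_3, f3_4, f3_5, f3_6, f3_7, f3_8, f3_9, f1_0, f1_1, f1_2, f1_3, f1_4, f1_5, f1_6, f1_7, f1_8, f1_9, f1_10, f1_11, f1_12, f1_13, f1_14] at key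
  linarith

end Pool.Agent.Helper533.BL
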