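import Pool.Agent.Helper533.BL.A

set_option autoImplicit false
set_option maxRecDepth 100000
open Finset

namespace Pool.Agent.Helper533.BL

def e5 (V : Type) : (Fin 5 → V) ≃ V × V × V × V × V where
  toFun x := (x 0, x 1, x 2, x 3, x 4)
  invFun p := ![p.1, p.2.1, p.2.2.1, p.2.2.2.1, p.2.2.2.2]
  left_inv x := by funext i; fin_cases i <;> rfl
  right_inv p := rfl

theorem conv {V : Type} [Fintype V] (F : V → V → V → V → V → ℕ) :
    ∑ x : Fin 5 → V, F (x 0) (x 1) (x 2) (x 3) (x 4)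
      = ∑ a, ∑ b, ∑ c, ∑ d, ∑ e, F a b c d e := by
  rw [← Equiv.sum_comp (e5 V).symm]
  simp only [Fintype.sum_prod_type]
  rfl

theorem psd {V : Type} [Fintype V] (s : Finset ℕ) (u : ℕ → V → ℤ) :
    0 ≤ ∑ d, ∑ e, ∑ k ∈ s, u k d * u k e := by
  have h : ∑ d, ∑ e, ∑ k ∈ s, u k d * u k e = ∑ k ∈ s, (∑ d, u k d) * ∑ e, u k e := by
    simp only [Finset.sum_mul_sum]
    calc ∑ d, ∑ e, ∑ k ∈ s, u k d * u k e = ∑ d, ∑ k ∈ s, ∑ e, u k d * u k e :=
          sum_congr rfl fun d _ => sum_comm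
      _ = _ := sum_comm
  rw [h]
  exact sum_nonneg fun k _ => mul_self_nonneg _

variable {V : Type} (χ : V → V → Bool)

theorem c3_lt {x y z : ℕ} (hx : x < 2) (hy : y < 2) (hz : z < 2) : c3 x y z < 8 := by
  show x + (2 * y + 4 * z) < 8
  omega

theorem c5_lt {x y z u v : ℕ} (hx : x < 2) (hy : y < 2) (hz : z < 2) (hu : u < 2) (hv : v < 2) :
    c5 x y z u v < 32 := by
  show x + (2 * y + (4 * z + (8 * u + 16 * v))) < 32
  omega

/-- number of ordered triples coding an edge -/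
def PP [Fintype V] : ℕ := ∑ a, ∑ b, ∑ c, pc (c3 (sg χ a b c) (sg χ b a c) (sg χ c a b))

theorem lower3 [Fintype V] :
    (8796093022208 : ℤ) * Fintype.card V ^ 5 + 412316860416 * Fintype.card V ^ 2 * (PP χ : ℤ)
      ≤ ((∑ x : Fin 5 → V, F3 χ (x 0) (x 1) (x 2) (x 3) (x 4) : ℕ) : ℤ) := by
  rw [conv, PP]
  push_cast
  have e1 : (8796093022208 : ℤ) * Fintype.card V ^ 5 + 412316860416 * Fintype.card V ^ 2 *
      (∑ a, ∑ b, ∑ c, (pc (c3 (sg χ a b c) (sg χ b a c) (sg χ c a b)) : ℤ))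
      = ∑ a : V, ∑ b : V, ∑ c : V, ∑ d : V, ∑ e : V,
        ((8796093022208 : ℤ) + 412316860416 * (pc (c3 (sg χ a b c) (sg χ b a c) (sg χ c a b)) : ℤ)) := by
    simp only [Finset.sum_add_distrib, ← Finset.mul_sum, Finset.sum_const, Finset.card_univ,
      nsmul_eq_mul]
    ring
  rw [e1]
  refine sum_le_sum fun a _ => sum_le_sum fun b _ => sum_le_sum fun c _ => ?_
  have e2 : ∀ d e : V, (F3 χ a b c d e : ℤ) =
      ∑ k ∈ range 32, ((l3 (c3 (sg χ a b c) (sg χ b a c) (sg χ c a b)) (c5 (sg χ a b d) (sg χ b a d) (sg χ c a d) (sg χ d a b) (sg χ d a c)) k : ℤ) - 2097152) *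
        ((l3 (c3 (sg χ a b c) (sg χ b a c) (sg χ c a b)) (c5 (sg χ a b e) (sg χ b a e) (sg χ c a e) (sg χ e a b) (sg χ e a c)) k : ℤ) - 2097152)
      + ((8796093022208 : ℤ) + 412316860416 * (pc (c3 (sg χ a b c) (sg χ b a c) (sg χ c a b)) : ℤ)) := by
    intro d e
    rw [F3, q3_eq _ _ _ (c3_lt (sg_lt χ _ _ _) (sg_lt χ _ _ _) (sg_lt χ _ _ _))
      (c5_lt (sg_lt χ _ _ _) (sg_lt χ _ _ _) (sg_lt χ _ _ _) (sg_lt χ _ _ _) (sg_lt χ _ _ _))
      (c5_lt (sg_lt χ _ _ _) (sg_lt χ _ _ _) (sg_lt χ _ _ _) (sg_lt χ _ _ _) (sg_lt χ _ _ _))]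
    ring
  simp only [e2, Finset.sum_add_distrib (s := (Finset.univ : Finset V))]
  have := psd (V := V) (range 32) (fun k d => (l3 (c3 (sg χ a b c) (sg χ b a c) (sg χ c a b)) (c5 (sg χ a b d) (sg χ b a d) (sg χ c a d) (sg χ d a b) (sg χ d a c)) k : ℤ) - 2097152)
  linarith

theorem lower1 [Fintype V] :
    (8796093022208 : ℤ) * Fintype.card V ^ 5
      ≤ ((∑ x : Fin 5 → V, F1 χ (x 0) (x 1) (x 2) (x 3) (x 4) : ℕ) : ℤ) := by
  rw [conv]
  push_cast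
  have e2 : ∀ a b c d e : V, (F1 χ a b c d e : ℤ) =
      ∑ k ∈ range 6, ((l1 (c3 (sg χ a b c) (sg χ b a c) (sg χ c a b)) k : ℤ) - 2097152) *
        ((l1 (c3 (sg χ a d e) (sg χ d a e) (sg χ e a d)) k : ℤ) - 2097152) + 8796093022208 := by
    intro a b c d e
    rw [F1, q1_eq _ _ (c3_lt (sg_lt χ _ _ _) (sg_lt χ _ _ _) (sg_lt χ _ _ _))
      (c3_lt (sg_lt χ _ _ _) (sg_lt χ _ _ _) (sg_lt χ _ _ _))]
  have e3 : ∀ a : V, (8796093022208 : ℤ) * Fintype.card V ^ 4 ≤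
      ∑ b : V, ∑ c : V, ∑ d : V, ∑ e : V, (F1 χ a b c d e : ℤ) := by
    intro a
    have p := psd (V := V × V) (range 6)
      (fun k q => (l1 (c3 (sg χ a q.1 q.2) (sg χ q.1 a q.2) (sg χ q.2 a q.1)) k : ℤ) - 2097152)
    simp only [Fintype.sum_prod_type] at p
    simp only [e2]
    have e4 : ∑ b : V, ∑ c : V, ∑ d : V, ∑ e : V,
        (∑ k ∈ range 6, ((l1 (c3 (sg χ a b c) (sg χ b a c) (sg χ c a b)) k : ℤ) - 2097152) *
        ((l1 (c3 (sg χ a d e) (sg χ d a e) (sg χ e a d)) k : ℤ) - 2097152) + 8796093022208)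
        = ∑ b : V, ∑ c : V, ∑ d : V, ∑ e : V,
        (∑ k ∈ range 6, ((l1 (c3 (sg χ a b c) (sg χ b a c) (sg χ c a b)) k : ℤ) - 2097152) *
        ((l1 (c3 (sg χ a d e) (sg χ d a e) (sg χ e a d)) k : ℤ) - 2097152)) + 8796093022208 * Fintype.card V ^ 4 := by
      simp only [Finset.sum_add_distrib (s := (Finset.univ : Finset V)), Finset.sum_const,
        Finset.card_univ, nsmul_eq_mul]
      ring
    rw [e4]
    linarith
  calc (8796093022208 : ℤ) * Fintype.card V ^ 5 = ∑ _a : V, (8796093022208 : ℤ) * Fintype.card V ^ 4 := by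
        simp only [Finset.sum_const, Finset.card_univ, nsmul_eq_mul]; ring
    _ ≤ _ := sum_le_sum fun a _ => e3 a

theorem main_aux [Fintype V] : 100000 * PP χ ≤ 25549 * Fintype.card V ^ 3 := by
  have t := total χ
  have a3 := lower3 χ
  have a1 := lower1 χ
  rcases Nat.eq_zero_or_pos (Fintype.card V) with h0 | hpos
  · haveI : IsEmpty V := Fintype.card_eq_zero_iff.mp h0
    simp [PP]
  have t' : (10 : ℤ) * ((∑ x : Fin 5 → V, F3 χ (x 0) (x 1) (x 2) (x 3) (x 4) : ℕ) : ℤ)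
      + 60 * ((∑ x : Fin 5 → V, F1 χ (x 0) (x 1) (x 2) (x 3) (x 4) : ℕ) : ℤ)
      ≤ 616779939901236 * (Fintype.card V : ℤ) ^ 5 := by exact_mod_cast t
  have hN : (0 : ℤ) < (Fintype.card V : ℤ) ^ 2 := by positivity
  have key : (Fintype.card V : ℤ) ^ 2 * (100000 * (PP χ : ℤ)) ≤
      (Fintype.card V : ℤ) ^ 2 * (25549 * (Fintype.card V : ℤ) ^ 3) := by
    have h5 : (0 : ℤ) ≤ (Fintype.card V : ℤ) ^ 5 := by positivity
    have e : (Fintype.card V : ℤ) ^ 2 * (25549 * (Fintype.card V : ℤ) ^ 3)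
        = 25549 * (Fintype.card V : ℤ) ^ 5 := by ring
    rw [e]
    nlinarith
  have := le_of_mul_le_mul_left key hN
  exact_mod_cast this

end Pool.Agent.Helper533.BL
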