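import Pool.Agent.Helper533.BL.Tab

set_option autoImplicit false
set_option maxRecDepth 100000

namespace Pool.Agent.Helper533.BL

theorem ck0 : chk 0 0 0 0 0 0 = true := by decide +kernel
theorem ck1 : chk 0 0 1 0 1 1 = true := by decide +kernel
theorem ck2 : chk 0 1 0 1 0 1 = true := by decide +kernel
theorem ck3 : chk 0 1 1 1 1 0 = true := by decide +kernel
theorem ck4 : chk 1 0 0 1 1 0 = true := by decide +kernel
theorem ck5 : chk 1 0 1 1 0 1 = true := by decide +kernel
theorem ck6 : chk 1 1 0 0 1 1 = true := by decide +kernel
theorem ck7 : chk 1 1 1 0 0 0 = true := by decide +kernel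
theorem cg1 : chk1 = true := by decide +kernel
theorem cg3_0 : chk3 0 = true := by decide +kernel
theorem cg3_1 : chk3 1 = true := by decide +kernel
theorem cg3_2 : chk3 2 = true := by decide +kernel
theorem cg3_3 : chk3 3 = true := by decide +kernel
theorem cg3_4 : chk3 4 = true := by decide +kernel
theorem cg3_5 : chk3 5 = true := by decide +kernel
theorem cg3_6 : chk3 6 = true := by decide +kernel
theorem cg3_7 : chk3 7 = true := by decide +kernel

end Pool.Agent.Helper533.BL
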