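import Mathlib
import Pool.Agent.Helper533.BL.Bd

set_option autoImplicit false
open Finset

namespace Pool.Agent.Helper533.BL

/-- The link of `v` in the 3-graph `H`: `a`, `b` are adjacent iff `{v, a, b}` is an edge
(`v`, `a`, `b` distinct); `v` itself is an isolated vertex. -/
def link {n : ℕ} (H : Finset (Finset (Fin n))) (v : Fin n) : SimpleGraph (Fin n) :=
  SimpleGraph.fromRel (fun a b : Fin n => a ≠ v ∧ b ≠ v ∧ ({v, a, b} : Finset (Fin n)) ∈ H)

theorem exists_chi {n : ℕ} (H : Finset (Finset (Fin n)))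
    (hl : ∀ v, (link H v).Colorable 2) :
    ∃ χ : Fin n → Fin n → Bool, ∀ v a b, v ≠ a → v ≠ b → a ≠ b →
      ({v, a, b} : Finset (Fin n)) ∈ H → χ v a ≠ χ v b := by
  have C : ∀ v, (link H v).Coloring (Fin 2) := fun v => (hl v).some
  refine ⟨fun v a => decide (C v a = 0), ?_⟩
  intro v a b hva hvb hab hH h
  have hadj : (link H v).Adj a b := by
    unfold link
    rw [SimpleGraph.fromRel_adj]
    exact ⟨hab, Or.inl ⟨hva.symm, hvb.symm, hH⟩⟩
  have hne := (C v).valid hadj
  simp only [decide_eq_decide] at h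
  apply hne
  have h1 : ∀ z : Fin 2, z = 0 ∨ z = 1 := by decide
  rcases h1 (C v a) with e | e <;> rcases h1 (C v b) with e' | e'
  · rw [e, e']
  · rw [e, e'] at h; simp at h
  · rw [e, e'] at h; simp at h
  · rw [e, e']

theorem six_le {n : ℕ} (G : Finset (Finset (Fin n))) (hG : ∀ s ∈ G, s.card = 3) :
    6 * G.card ≤ ∑ a : Fin n, ∑ b : Fin n, ∑ c : Fin n,
      (if a ≠ b ∧ a ≠ c ∧ b ≠ c ∧ ({a, b, c} : Finset (Fin n)) ∈ G then 1 else 0) := by
  set T : Finset (Fin n × Fin n × Fin n) := univ.filter fun t =>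
    t.1 ≠ t.2.1 ∧ t.1 ≠ t.2.2 ∧ t.2.1 ≠ t.2.2 ∧ ({t.1, t.2.1, t.2.2} : Finset (Fin n)) ∈ G with hT
  have e : ∑ a : Fin n, ∑ b : Fin n, ∑ c : Fin n,
      (if a ≠ b ∧ a ≠ c ∧ b ≠ c ∧ ({a, b, c} : Finset (Fin n)) ∈ G then 1 else 0) = T.card := by
    rw [hT, Finset.card_filter, Fintype.sum_prod_type]
    refine sum_congr rfl fun a _ => ?_
    rw [Fintype.sum_prod_type]
  rw [e]
  refine Finset.mul_card_image_le_card_of_maps_to
    (f := fun t : Fin n × Fin n × Fin n => ({t.1, t.2.1, t.2.2} : Finset (Fin n))) ?_ 6 ?_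
  · intro t ht
    exact (mem_filter.mp ht).2.2.2.2
  · intro s hs
    obtain ⟨x, y, z, hxy, hxz, hyz, rfl⟩ := Finset.card_eq_three.mp (hG s hs)
    have h6 : ({(x, y, z), (x, z, y), (y, x, z), (y, z, x), (z, x, y),
      (z, y, x)} : Finset (Fin n × Fin n × Fin n)).card = 6 := by
      have h1 := hxy.symm
      have h2 := hxz.symm
      have h3 := hyz.symm
      simp [Finset.card_insert_of_notMem, hxy, hxz, hyz, h1, h2, h3]
    rw [← h6]
    apply Finset.card_le_card
    intro t ht
    have h1 := hxy.symm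
    have h2 := hxz.symm
    have h3 := hyz.symm
    have p1 : ({x, z, y} : Finset (Fin n)) = {x, y, z} := by ext w; simp; tauto
    have p2 : ({y, x, z} : Finset (Fin n)) = {x, y, z} := by ext w; simp; tauto
    have p3 : ({y, z, x} : Finset (Fin n)) = {x, y, z} := by ext w; simp; tauto
    have p4 : ({z, x, y} : Finset (Fin n)) = {x, y, z} := by ext w; simp; tauto
    have p5 : ({z, y, x} : Finset (Fin n)) = {x, y, z} := by ext w; simp; tauto
    simp only [mem_insert, mem_singleton] at ht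
    rw [mem_filter, hT, mem_filter]
    rcases ht with rfl | rfl | rfl | rfl | rfl | rfl <;> simp_all

theorem bound {n : ℕ} (H : Finset (Finset (Fin n))) (h3 : ∀ e ∈ H, e.card = 3)
    (hl : ∀ v, (link H v).Colorable 2) : 600000 * H.card ≤ 25549 * n ^ 3 := by
  obtain ⟨χ, hχ⟩ := exists_chi H hl
  have h1 : 6 * H.card ≤ PP χ := by
    refine (six_le H h3).trans ?_
    refine sum_le_sum fun a _ => sum_le_sum fun b _ => sum_le_sum fun c _ => ?_
    split_ifs with h
    · obtain ⟨hab, hac, hbc, hH⟩ := h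
      have hb : ({b, a, c} : Finset (Fin n)) ∈ H := by
        have : ({b, a, c} : Finset (Fin n)) = {a, b, c} := by ext w; simp; tauto
        rw [this]; exact hH
      have hc : ({c, a, b} : Finset (Fin n)) ∈ H := by
        have : ({c, a, b} : Finset (Fin n)) = {a, b, c} := by ext w; simp; tauto
        rw [this]; exact hH
      have e1 : sg χ a b c = 1 := if_neg (hχ a b c hab hac hbc hH)
      have e2 : sg χ b a c = 1 := if_neg (hχ b a c hab.symm hbc hac hb)
      have e3 : sg χ c a b = 1 := if_neg (hχ c a b hac.symm hbc.symm hab hc)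
      rw [e1, e2, e3]
      decide
    · exact Nat.zero_le _
  have h2 := main_aux χ
  rw [Fintype.card_fin] at h2
  omega

end Pool.Agent.Helper533.BL
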